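import Mathlib

/-! Conjugate degree sequences of graphs and their convex hull. -/

namespace Pool.Agent.Helper19.ConjHull

open Classical in
/-- The conjugate degree sequence of a graph on `n` vertices: for `k = 0, ..., n - 1` the entry
with index `k` is the number of vertices of degree at least `k + 1`. -/
noncomputable def conjSeq {n : ℕ} (G : SimpleGraph (Fin n)) : Fin n → ℝ :=
  fun k => ((Finset.univ.filter (fun v : Fin n => (k : ℕ) + 1 ≤ G.degree v)).card : ℝ)

/-- `hullC n` is the polytope `C_n`, the convex hull of the conjugate degree sequences of all
graphs on `n` vertices. -/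
def hullC (n : ℕ) : Set (Fin n → ℝ) :=
  convexHull ℝ (Set.range (conjSeq : SimpleGraph (Fin n) → (Fin n → ℝ)))

end Pool.Agent.Helper19.ConjHull
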