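import Mathlib

/-! Existence of almost regular graphs with one vertex of prescribed even degree. -/

open Finset

namespace Pool.Agent.Helper19.Conj

open Classical in
/-- `f` is the degree function of some graph on `V`. -/
def Realizable (V : Type) [Fintype V] (f : V → ℕ) : Prop :=
  ∃ G : SimpleGraph V, ∀ v, G.degree v = f v

lemma degree_irrel {V : Type} (G : SimpleGraph V) (v : V) (i1 i2 : Fintype (G.neighborSet v)) :
    @SimpleGraph.degree V G v i1 = @SimpleGraph.degree V G v i2 := by
  rw [Subsingleton.elim i1 i2]

open Classical in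
lemma Realizable.transfer {V W : Type} [Fintype V] [Fintype W] (e : V ≃ W) {f : V → ℕ}
    (h : Realizable V f) : Realizable W (fun w => f (e.symm w)) := by
  obtain ⟨G, hG⟩ := h
  refine ⟨G.comap e.symm, fun w => ?_⟩
  change _ = f (e.symm w)
  rw [← hG (e.symm w)]
  have := SimpleGraph.Iso.degree_eq (SimpleGraph.Iso.comap e.symm G) w
  rw [degree_irrel _ _ _ _] at this
  exact this.symm

/-- The classical 1-factorisation of the complete graph on an even number of vertices. -/
def col (m : ℕ) : Option (ZMod m) → Option (ZMod m) → ZMod m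
  | some x, some y => x + y
  | some x, none => x + x
  | none, some y => y + y
  | none, none => 0

lemma col_symm (m : ℕ) (a b : Option (ZMod m)) : col m a b = col m b a := by
  rcases a with _ | a <;> rcases b with _ | b <;> simp [col, add_comm]

lemma half (m : ℕ) (hm : Odd m) (x y : ZMod m) (h : x + x = y + y) : x = y := by
  obtain ⟨k, rfl⟩ := hm
  have h0 : ((2 * k + 1 : ℕ) : ZMod (2 * k + 1)) = 0 := ZMod.natCast_self _
  push_cast at h0
  have key : ∀ z : ZMod (2 * k + 1), z = ((k : ZMod (2 * k + 1)) + 1) * (z + z) := by
    intro z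
    linear_combination (-z) * h0
  rw [key x, key y, h]

lemma col_inj (m : ℕ) (hm : Odd m) (a b c : Option (ZMod m)) (hb : b ≠ a) (hc : c ≠ a)
    (h : col m a b = col m a c) : b = c := by
  rcases a with _ | a <;> rcases b with _ | b <;> rcases c with _ | c <;> simp [col] at *
  · exact half m hm _ _ h
  · exact hc h.symm
  · exact hb h
  · exact h

open Classical in
lemma partner (m : ℕ) (hm : Odd m) (a : Option (ZMod m)) (c : ZMod m) :
    ∃ b, b ≠ a ∧ col m a b = c := by
  have : NeZero m := ⟨by rintro rfl; simp at hm⟩
  let f : {b : Option (ZMod m) // b ≠ a} → ZMod m := fun b => col m a b.1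
  have hinj : Function.Injective f := by
    intro b b' h
    exact Subtype.ext (col_inj m hm a b.1 b'.1 b.2 b'.2 h)
  have hcard : Fintype.card {b : Option (ZMod m) // b ≠ a} = Fintype.card (ZMod m) := by
    rw [Fintype.card_subtype_compl, Fintype.card_option]
    simp
  have hbij : Function.Bijective f := (Fintype.bijective_iff_injective_and_card f).2 ⟨hinj, hcard⟩
  obtain ⟨b, hb⟩ := hbij.2 c
  exact ⟨b.1, b.2, hb⟩

/-- the graph formed by the colour classes in `C` and the edges of colour `c0` inside `S` -/
def colGraph (m : ℕ) (C : Set (ZMod m)) (c0 : ZMod m) (S : Set (Option (ZMod m))) :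
    SimpleGraph (Option (ZMod m)) where
  Adj a b := a ≠ b ∧ (col m a b ∈ C ∨ (col m a b = c0 ∧ a ∈ S ∧ b ∈ S))
  symm := ⟨by
    rintro a b ⟨h, h'⟩
    refine ⟨h.symm, ?_⟩
    rw [col_symm]
    tauto⟩
  loopless := ⟨by
    rintro a ⟨h, _⟩
    exact h rfl⟩

open Classical in
lemma colGraph_degree (m : ℕ) [NeZero m] (hm : Odd m) (C : Finset (ZMod m)) (c0 : ZMod m)
    (S : Finset (Option (ZMod m)))
    (hS : ∀ a ∈ S, ∀ b, b ≠ a → col m a b = c0 → b ∈ S) (a : Option (ZMod m)) :
    (colGraph m (C : Set (ZMod m)) c0 (S : Set (Option (ZMod m)))).degree a =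
      (C ∪ if a ∈ S then {c0} else ∅).card := by
  rw [← SimpleGraph.card_neighborFinset_eq_degree]
  apply Finset.card_bij (fun b _ => col m a b)
  · intro b hb
    rw [SimpleGraph.mem_neighborFinset] at hb
    obtain ⟨hne, h⟩ := hb
    rcases h with h | ⟨h, ha, hb⟩
    · exact Finset.mem_union_left _ (by simpa using h)
    · apply Finset.mem_union_right
      have ha' : a ∈ S := by simpa using ha
      simp [ha', h]
  · intro b hb b' hb' h
    rw [SimpleGraph.mem_neighborFinset] at hb hb'
    exact col_inj m hm a b b' hb.1.symm hb'.1.symm h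
  · intro c hc
    obtain ⟨b, hba, hb⟩ := partner m hm a c
    refine ⟨b, ?_, hb⟩
    rw [SimpleGraph.mem_neighborFinset]
    refine ⟨hba.symm, ?_⟩
    rw [Finset.mem_union] at hc
    rcases hc with hc | hc
    · left
      rw [hb]
      simpa using hc
    · right
      by_cases ha : a ∈ S
      · simp [ha] at hc
        subst hc
        exact ⟨hb, by simpa using ha, by simpa using hS a ha b hba hb⟩
      · simp [ha] at hc

open Classical in
/-- there are invariant sets of every even size -/
lemma exists_inv (m : ℕ) [NeZero m] (hm : Odd m) (c0 : ZMod m) (t : ℕ) (ht : 2 * t ≤ m + 1) :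
    ∃ S : Finset (Option (ZMod m)), S.card = 2 * t ∧
      ∀ a ∈ S, ∀ b, b ≠ a → col m a b = c0 → b ∈ S := by
  induction t with
  | zero => exact ⟨∅, by simp, by simp⟩
  | succ t ih =>
    obtain ⟨S, hcard, hS⟩ := ih (by omega)
    have hlt : S.card < (Finset.univ : Finset (Option (ZMod m))).card := by
      rw [Finset.card_univ, Fintype.card_option, ZMod.card]
      omega
    obtain ⟨x, -, hx⟩ := Finset.exists_mem_notMem_of_card_lt_card hlt
    obtain ⟨y, hyx, hy⟩ := partner m hm x c0
    have hyS : y ∉ S := by
      intro hyS
      apply hx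
      exact hS y hyS x hyx.symm (by rw [col_symm]; exact hy)
    refine ⟨insert x (insert y S), ?_, ?_⟩
    · rw [Finset.card_insert_of_notMem, Finset.card_insert_of_notMem hyS, hcard]
      · ring
      · simp only [Finset.mem_insert, not_or]
        exact ⟨hyx.symm, hx⟩
    · intro a ha b hba hb
      simp only [Finset.mem_insert] at ha ⊢
      rcases ha with rfl | rfl | ha
      · right; left
        exact col_inj m hm a b y hba hyx (by rw [hb, hy])
      · left
        exact col_inj m hm a b x hba hyx.symm (by rw [hb, col_symm, hy])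
      · right; right
        exact hS a ha b hba hb

open Classical in
/-- regular graphs of every degree on an even number of vertices -/
lemma realizable_even (n i : ℕ) (hn : Even n) (hi : i < n) :
    Realizable (Fin n) (fun _ => i) := by
  obtain ⟨m, rfl⟩ : ∃ m, n = m + 1 := ⟨n - 1, by omega⟩
  have hm : Odd m := by
    rcases Nat.even_or_odd m with h | h
    · exfalso
      have := (Nat.even_add_one (n := m)).1 hn
      exact this h
    · exact h
  have : NeZero m := ⟨by rintro rfl; simp at hm⟩
  obtain ⟨C, -, hC⟩ := Finset.exists_subset_card_eq (s := (Finset.univ : Finset (ZMod m)))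
    (n := i) (by rw [Finset.card_univ, ZMod.card]; omega)
  have h1 : Realizable (Option (ZMod m)) (fun _ => i) := by
    refine ⟨colGraph m (C : Set (ZMod m)) 0 ((∅ : Finset (Option (ZMod m))) : Set _), fun v => ?_⟩
    rw [colGraph_degree m hm C 0 ∅ (by simp) v]
    simp [hC]
  have e : Option (ZMod m) ≃ Fin (m + 1) :=
    Fintype.equivFinOfCardEq (by rw [Fintype.card_option, ZMod.card])
  exact h1.transfer e

/-- add a new vertex to a graph, joined to the vertices outside `S` -/
def addVertex {V : Type} (G : SimpleGraph V) (S : Set V) : SimpleGraph (Option V) where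
  Adj a b := match a, b with
    | some x, some y => G.Adj x y
    | some x, none => x ∉ S
    | none, some y => y ∉ S
    | none, none => False
  symm := ⟨by
    rintro (_ | a) (_ | b) h
    · exact h
    · exact h
    · exact h
    · exact G.adj_symm h⟩
  loopless := ⟨by
    rintro (_ | a) h
    · exact h
    · exact G.loopless.irrefl a h⟩

open Classical in
lemma addVertex_degree_none {V : Type} [Fintype V] (G : SimpleGraph V) (S : Finset V) :
    (addVertex G (S : Set V)).degree none = Fintype.card V - S.card := by
  rw [← SimpleGraph.card_neighborFinset_eq_degree, ← Finset.card_compl]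
  symm
  apply Finset.card_bij (fun b _ => some b)
  · intro b hb
    rw [SimpleGraph.mem_neighborFinset]
    simpa [addVertex] using hb
  · intro a _ b _ h
    exact Option.some_injective _ h
  · rintro (_ | b) hb
    · rw [SimpleGraph.mem_neighborFinset] at hb
      exact hb.elim
    · rw [SimpleGraph.mem_neighborFinset] at hb
      exact ⟨b, by simpa [addVertex] using hb, rfl⟩

open Classical in
lemma addVertex_degree_some {V : Type} [Fintype V] (G : SimpleGraph V) (S : Finset V) (v : V) :
    (addVertex G (S : Set V)).degree (some v) = G.degree v + if v ∈ S then 0 else 1 := by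
  rw [← SimpleGraph.card_neighborFinset_eq_degree, ← SimpleGraph.card_neighborFinset_eq_degree]
  have : (addVertex G (S : Set V)).neighborFinset (some v) =
      (G.neighborFinset v).map Function.Embedding.some ∪ (if v ∈ S then ∅ else {none}) := by
    ext b
    rw [SimpleGraph.mem_neighborFinset]
    rcases b with _ | b
    · by_cases hv : v ∈ S <;> simp [addVertex, hv]
    · by_cases hv : v ∈ S <;> simp [addVertex, hv]
  rw [this, Finset.card_union_of_disjoint, Finset.card_map]
  · congr 1
    split_ifs <;> simp
  · rw [Finset.disjoint_left]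
    intro b hb hb'
    rw [Finset.mem_map] at hb
    obtain ⟨c, _, rfl⟩ := hb
    split_ifs at hb' <;> simp at hb'

open Classical in
/-- on an odd number `n` of vertices: one vertex of any even degree `j` and all other vertices of
any degree `i` with `1 ≤ i ≤ n - 2` -/
lemma realizable_mix (n i j : ℕ) (hn : Odd n) (hi1 : 1 ≤ i) (hi : i + 2 ≤ n) (hj : Even j)
    (hjn : j < n) :
    ∃ u : Fin n, Realizable (Fin n) (fun v => if v = u then j else i) := by
  obtain ⟨m, rfl⟩ : ∃ m, n = m + 1 + 1 := ⟨n - 2, by omega⟩
  have hm : Odd m := by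
    obtain ⟨k, hk⟩ := hn
    exact ⟨k - 1, by omega⟩
  have : NeZero m := ⟨by rintro rfl; simp at hm⟩
  obtain ⟨C, hCs, hC⟩ := Finset.exists_subset_card_eq
    (s := (Finset.univ : Finset (ZMod m)).erase 0) (n := i - 1)
    (by rw [Finset.card_erase_of_mem (Finset.mem_univ _), Finset.card_univ, ZMod.card]; omega)
  have hC0 : (0 : ZMod m) ∉ C := fun h => by
    have := hCs h
    simp at this
  obtain ⟨t, ht⟩ : ∃ t, m + 1 - j = 2 * t := by
    obtain ⟨k, hk⟩ := hm
    obtain ⟨l, hl⟩ := hj
    exact ⟨k + 1 - l, by omega⟩
  obtain ⟨S, hScard, hS⟩ := exists_inv m hm 0 t (by omega)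
  have h1 : Realizable (Option (Option (ZMod m))) (fun v => if v = none then j else i) := by
    refine ⟨addVertex (colGraph m (C : Set (ZMod m)) 0 (S : Set _)) (S : Set _), fun v => ?_⟩
    rcases v with _ | v
    · rw [addVertex_degree_none, Fintype.card_option, ZMod.card, hScard]
      simp
      omega
    · rw [addVertex_degree_some, colGraph_degree m hm C 0 S hS v]
      by_cases hv : v ∈ S
      · simp only [hv, if_true]
        rw [Finset.card_union_of_disjoint (by simpa using hC0)]
        simp [hC]
        omega
      · simp [hv, hC]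
        omega
  have e : Option (Option (ZMod m)) ≃ Fin (m + 1 + 1) :=
    Fintype.equivFinOfCardEq (by rw [Fintype.card_option, Fintype.card_option, ZMod.card])
  refine ⟨e none, ?_⟩
  have h2 := h1.transfer e
  convert h2 using 2 with v
  have : v = e none ↔ e.symm v = none := by
    constructor
    · rintro rfl
      simp
    · intro h
      rw [← h]
      simp
  simp [this]

open Classical in
/-- regular graphs of even degree on an odd number of vertices -/
lemma realizable_odd (n i : ℕ) (hn : Odd n) (hi : i < n) (hie : Even i) :
    Realizable (Fin n) (fun _ => i) := by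
  rcases Nat.eq_zero_or_pos i with rfl | hpos
  · exact ⟨⊥, fun v => by simp⟩
  · rcases Nat.lt_or_ge (i + 1) n with h | h
    · obtain ⟨u, hu⟩ := realizable_mix n i i hn hpos (by omega) hie hi
      simpa using hu
    · refine ⟨⊤, fun v => ?_⟩
      have h1 : n - 1 = i := by omega
      have h2 : i = Fintype.card (Fin n) - 1 := by rw [Fintype.card_fin]; exact h1.symm
      change _ = i
      rw [h2, ← SimpleGraph.complete_graph_degree (V := Fin n) v]
      exact degree_irrel _ _ _ _

end Pool.Agent.Helper19.Conj
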