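import Mathlib
import Pool.Agent.Helper19.ConjGraphs
import Pool.Agent.Helper19.ConjDefs

/-! Proof of the description of the extreme points of the hull of the conjugate degree
sequences. -/

open Finset

namespace Pool.Agent.Helper19.ConjHull

/-- step function -/
def stp {n : ℕ} (i : ℕ) : Fin n → ℝ := fun k => if (k : ℕ) < i then 1 else 0

/-- alternating sum -/
def alt {n : ℕ} (y : Fin n → ℝ) : ℝ := ∑ k : Fin n, (-1) ^ (k : ℕ) * y k

open Classical in
lemma conjSeq_eq {n : ℕ} (G : SimpleGraph (Fin n)) :
    conjSeq G = ∑ v : Fin n, stp (G.degree v) := by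
  funext k
  simp only [conjSeq, Finset.sum_apply, stp]
  rw [Finset.card_filter]
  push_cast
  apply Finset.sum_congr rfl
  intro v _
  rcases Nat.lt_or_ge (k : ℕ) (G.degree v) with h | h
  · rw [if_pos h, if_pos (by omega)]
  · rw [if_neg (by omega), if_neg (by omega)]

lemma alt_stp {n : ℕ} (d : ℕ) (hd : d ≤ n) :
    alt (stp d : Fin n → ℝ) = if Odd d then 1 else 0 := by
  unfold alt stp
  rw [Fin.sum_univ_eq_sum_range (fun k => (-1 : ℝ) ^ k * if k < d then 1 else 0) n]
  have h1 : ∑ k ∈ range n, ((-1 : ℝ) ^ k * if k < d then 1 else 0) =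
      ∑ k ∈ range d, (-1 : ℝ) ^ k := by
    have hsub : range d ⊆ range n := by
      intro k hk
      rw [mem_range] at *
      omega
    rw [← Finset.sum_subset hsub]
    · apply Finset.sum_congr rfl
      intro k hk
      rw [mem_range] at hk
      rw [if_pos hk, mul_one]
    · intro k _ hk
      rw [mem_range] at hk
      rw [if_neg hk, mul_zero]
  rw [h1, neg_one_geom_sum]
  rcases Nat.even_or_odd d with h | h
  · rw [if_pos h, if_neg (Nat.not_odd_iff_even.2 h)]
  · rw [if_neg (Nat.not_even_iff_odd.2 h), if_pos h]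

lemma alt_add {n : ℕ} (y z : Fin n → ℝ) : alt (y + z) = alt y + alt z := by
  simp [alt, mul_add, Finset.sum_add_distrib]

lemma alt_smul {n : ℕ} (a : ℝ) (y : Fin n → ℝ) : alt (a • y) = a * alt y := by
  simp only [alt, Pi.smul_apply, smul_eq_mul, Finset.mul_sum]
  apply Finset.sum_congr rfl
  intro k _
  ring

lemma alt_sum {n : ℕ} {ι : Type*} (s : Finset ι) (f : ι → Fin n → ℝ) :
    alt (∑ i ∈ s, f i) = ∑ i ∈ s, alt (f i) := by
  simp only [alt, Finset.sum_apply, Finset.mul_sum]
  rw [Finset.sum_comm]

lemma stp_inj {n i j : ℕ} (hi : i ≤ n) (hj : j ≤ n) (h : (stp i : Fin n → ℝ) = stp j) :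
    i = j := by
  by_contra hne
  rcases Nat.lt_or_gt_of_ne hne with h' | h'
  · have := congrFun h ⟨i, by omega⟩
    simp [stp, h'] at this
  · have := congrFun h ⟨j, by omega⟩
    simp [stp, h'] at this

open Classical in
lemma degree_lt {n : ℕ} (G : SimpleGraph (Fin n)) (v : Fin n) : G.degree v < n := by
  have := G.degree_lt_card_verts v
  simpa using this

open Classical in
lemma alt_conjSeq {n : ℕ} (G : SimpleGraph (Fin n)) :
    alt (conjSeq G) = ((Finset.univ.filter (fun v => Odd (G.degree v))).card : ℝ) := by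
  rw [conjSeq_eq, alt_sum, Finset.card_filter]
  push_cast
  apply Finset.sum_congr rfl
  intro v _
  rw [alt_stp _ (degree_lt G v).le]

/-- inequalities valid on the hull -/
def K (n : ℕ) : Set (Fin n → ℝ) :=
  {y | (∀ k, 0 ≤ y k) ∧ (∀ k, y k ≤ n) ∧ (∀ k l, k ≤ l → y l ≤ y k) ∧
    (Odd n → alt y ≤ (n : ℝ) - 1)}

lemma convex_K (n : ℕ) : Convex ℝ (K n) := by
  rintro y ⟨hy1, hy2, hy3, hy4⟩ z ⟨hz1, hz2, hz3, hz4⟩ a b ha hb hab
  refine ⟨fun k => ?_, fun k => ?_, fun k l hkl => ?_, fun hn => ?_⟩
  · simp only [Pi.add_apply, Pi.smul_apply, smul_eq_mul]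
    have := mul_nonneg ha (hy1 k)
    have := mul_nonneg hb (hz1 k)
    linarith
  · simp only [Pi.add_apply, Pi.smul_apply, smul_eq_mul]
    have h1 := mul_le_mul_of_nonneg_left (hy2 k) ha
    have h2 := mul_le_mul_of_nonneg_left (hz2 k) hb
    have h3 : a * (n : ℝ) + b * n = n := by rw [← add_mul, hab, one_mul]
    linarith
  · simp only [Pi.add_apply, Pi.smul_apply, smul_eq_mul]
    have h1 := mul_le_mul_of_nonneg_left (hy3 k l hkl) ha
    have h2 := mul_le_mul_of_nonneg_left (hz3 k l hkl) hb
    linarith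
  · rw [alt_add, alt_smul, alt_smul]
    have h1 := mul_le_mul_of_nonneg_left (hy4 hn) ha
    have h2 := mul_le_mul_of_nonneg_left (hz4 hn) hb
    have h3 : a * ((n : ℝ) - 1) + b * (n - 1) = n - 1 := by rw [← add_mul, hab, one_mul]
    linarith

open Classical in
lemma odd_card_le {n : ℕ} (G : SimpleGraph (Fin n)) (hn : Odd n) :
    (Finset.univ.filter (fun v => Odd (G.degree v))).card + 1 ≤ n := by
  have h1 := G.even_card_odd_degree_vertices
  have h1' : Even (Finset.univ.filter (fun v => Odd (G.degree v))).card := by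
    convert h1
  have h2 : (Finset.univ.filter (fun v => Odd (G.degree v))).card ≤ n := by
    have := Finset.card_le_univ (Finset.univ.filter (fun v => Odd (G.degree v)))
    simpa using this
  rcases Nat.lt_or_ge (Finset.univ.filter (fun v => Odd (G.degree v))).card n with h | h
  · omega
  · have h3 : (Finset.univ.filter (fun v => Odd (G.degree v))).card = n := le_antisymm h2 h
    rw [h3] at h1'
    exact absurd hn (Nat.not_odd_iff_even.2 h1')

lemma hull_subset_K (n : ℕ) : hullC n ⊆ K n := by
  classical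
  apply convexHull_min _ (convex_K n)
  rintro _ ⟨G, rfl⟩
  refine ⟨fun k => ?_, fun k => ?_, fun k l hkl => ?_, fun hn => ?_⟩
  · exact Nat.cast_nonneg _
  · simp only [conjSeq]
    have := Finset.card_le_univ (Finset.univ.filter (fun v : Fin n => (k : ℕ) + 1 ≤ G.degree v))
    rw [Fintype.card_fin] at this
    exact_mod_cast this
  · simp only [conjSeq]
    have hkl' : (k : ℕ) ≤ l := hkl
    have : (Finset.univ.filter (fun v : Fin n => (l : ℕ) + 1 ≤ G.degree v)) ⊆
        (Finset.univ.filter (fun v : Fin n => (k : ℕ) + 1 ≤ G.degree v)) := by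
      intro v hv
      simp only [mem_filter, mem_univ, true_and] at *
      omega
    exact_mod_cast Finset.card_le_card this
  · rw [alt_conjSeq]
    have := odd_card_le G hn
    have h : (((Finset.univ.filter (fun v => Odd (G.degree v))).card + 1 : ℕ) : ℝ) ≤ n := by
      exact_mod_cast this
    push_cast at h
    linarith

lemma extreme_weight {E : Type*} [AddCommGroup E] [Module ℝ E] {A : Set E} (hA : Convex ℝ A)
    {x : E} (hx : x ∈ A.extremePoints ℝ) {ι : Type*} (s : Finset ι) (w : ι → ℝ) (z : ι → E)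
    (hw : ∀ i ∈ s, 0 ≤ w i) (hs : ∑ i ∈ s, w i = 1) (hz : ∀ i ∈ s, z i ∈ A)
    (hsum : ∑ i ∈ s, w i • z i = x) (i0 : ι) (hi0 : i0 ∈ s) (hpos : 0 < w i0) : z i0 = x := by
  classical
  have h1 : w i0 + ∑ i ∈ s.erase i0, w i = 1 := by
    rw [Finset.add_sum_erase _ _ hi0, hs]
  have h2 : w i0 • z i0 + ∑ i ∈ s.erase i0, w i • z i = x := by
    rw [Finset.add_sum_erase _ (fun i => w i • z i) hi0, hsum]
  rcases eq_or_lt_of_le (Finset.sum_nonneg (fun i (hi : i ∈ s.erase i0) =>
      hw i (Finset.mem_of_mem_erase hi))) with h0 | h0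
  · have h3 : ∀ i ∈ s.erase i0, w i = 0 :=
      (Finset.sum_eq_zero_iff_of_nonneg (fun i hi => hw i (Finset.mem_of_mem_erase hi))).1 h0.symm
    have h4 : ∑ i ∈ s.erase i0, w i • z i = 0 := by
      apply Finset.sum_eq_zero
      intro i hi
      rw [h3 i hi, zero_smul]
    rw [h4, add_zero] at h2
    rw [← h0, add_zero] at h1
    rw [h1, one_smul] at h2
    exact h2
  · set t := ∑ i ∈ s.erase i0, w i with ht
    have hy : ∑ i ∈ s.erase i0, (w i / t) • z i ∈ A := by
      apply hA.sum_mem
      · intro i hi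
        exact div_nonneg (hw i (Finset.mem_of_mem_erase hi)) h0.le
      · rw [← Finset.sum_div, ← ht, div_self h0.ne']
      · intro i hi
        exact hz i (Finset.mem_of_mem_erase hi)
    have hseg : x ∈ openSegment ℝ (z i0) (∑ i ∈ s.erase i0, (w i / t) • z i) := by
      refine ⟨w i0, t, hpos, h0, h1, ?_⟩
      rw [Finset.smul_sum, ← h2]
      congr 1
      apply Finset.sum_congr rfl
      intro i _
      rw [smul_smul]
      congr 1
      field_simp
    exact hx.2 (hz i0 hi0) hy hseg

lemma conjSeq_regular {n : ℕ} (G : SimpleGraph (Fin n)) (i : ℕ)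
    (h : ∀ v, (by classical exact G.degree v) = i) : conjSeq G = (n : ℝ) • stp i := by
  classical
  rw [conjSeq_eq]
  have : ∀ v, (stp (G.degree v) : Fin n → ℝ) = stp i := by
    intro v
    rw [← h v]
  rw [Finset.sum_congr rfl (fun v _ => this v)]
  rw [Finset.sum_const, Finset.card_univ, Fintype.card_fin]
  funext k
  simp


open Classical in
lemma conjSeq_mix {n : ℕ} (G : SimpleGraph (Fin n)) (i j : ℕ) (u : Fin n)
    (h : ∀ v, v ≠ u → G.degree v = i) (hu : G.degree u = j) :
    conjSeq G = ((n : ℝ) - 1) • stp i + stp j := by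
  rw [conjSeq_eq, ← Finset.add_sum_erase _ _ (Finset.mem_univ u), hu]
  have : ∀ v ∈ Finset.univ.erase u, (stp (G.degree v) : Fin n → ℝ) = stp i := by
    intro v hv
    rw [h v (Finset.ne_of_mem_erase hv)]
  rw [Finset.sum_congr rfl this, Finset.sum_const,
    Finset.card_erase_of_mem (Finset.mem_univ _), Finset.card_univ, Fintype.card_fin, add_comm]
  have hn : 1 ≤ n := by
    have := u.isLt
    omega
  funext k
  simp [Nat.cast_sub hn]

lemma mem_hull {n : ℕ} (G : SimpleGraph (Fin n)) : conjSeq G ∈ hullC n :=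
  subset_convexHull ℝ _ ⟨G, rfl⟩

open Classical in
lemma regular_mem {n : ℕ} (i : ℕ) (hi : i < n) (h : Even n ∨ Even i) :
    ((n : ℝ) • stp i : Fin n → ℝ) ∈ hullC n := by
  have hr : Pool.Agent.Helper19.Conj.Realizable (Fin n) (fun _ => i) := by
    rcases Nat.even_or_odd n with hn | hn
    · exact Pool.Agent.Helper19.Conj.realizable_even n i hn hi
    · rcases h with h | h
      · exact absurd hn (Nat.not_odd_iff_even.2 h)
      · exact Pool.Agent.Helper19.Conj.realizable_odd n i hn hi h
  obtain ⟨G, hG⟩ := hr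
  rw [← conjSeq_regular G i (fun v => hG v)]
  exact mem_hull G

open Classical in
lemma mix_real {n : ℕ} (i j : ℕ) (hn : Odd n) (hio : Odd i) (hi : i < n) (hj : Even j)
    (hjn : j < n) : ∃ G : SimpleGraph (Fin n), ∃ u : Fin n, (∀ v, v ≠ u → G.degree v = i) ∧
      G.degree u = j := by
  have hi2 : i + 2 ≤ n := by
    obtain ⟨a, ha⟩ := hn
    obtain ⟨b, hb⟩ := hio
    omega
  obtain ⟨u, G, hG⟩ := Pool.Agent.Helper19.Conj.realizable_mix n i j hn hio.pos hi2 hj hjn
  refine ⟨G, u, fun v hv => ?_, ?_⟩
  · rw [hG v]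
    simp [hv]
  · rw [hG u]
    simp

lemma mix_mem {n : ℕ} (i j : ℕ) (hn : Odd n) (hio : Odd i) (hi : i < n) (hj : Even j)
    (hjn : j < n) : (((n : ℝ) - 1) • stp i + stp j : Fin n → ℝ) ∈ hullC n := by
  classical
  obtain ⟨G, u, h1, h2⟩ := mix_real i j hn hio hi hj hjn
  rw [← conjSeq_mix G i j u h1 h2]
  exact mem_hull G

open Classical in
/-- the special graphs -/
def Special {n : ℕ} (G : SimpleGraph (Fin n)) : Prop :=
  (∃ i, ∀ v, G.degree v = i) ∨ (Odd n ∧ ∃ i, Odd i ∧ ∃ u, ∀ v, v ≠ u → G.degree v = i)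

open Classical in
lemma regular_of_extreme {n : ℕ} (hn : 1 ≤ n) (G : SimpleGraph (Fin n))
    (hG : conjSeq G ∈ (hullC n).extremePoints ℝ)
    (h : ∀ v, Even n ∨ Even (G.degree v)) : ∃ i, ∀ v, G.degree v = i := by
  have hn' : (0 : ℝ) < n := by exact_mod_cast hn
  have key : ∀ v, ((n : ℝ) • stp (G.degree v) : Fin n → ℝ) = conjSeq G := by
    intro v
    refine extreme_weight (convex_convexHull ℝ _) hG Finset.univ (fun _ => 1 / (n : ℝ))
      (fun v => ((n : ℝ) • stp (G.degree v) : Fin n → ℝ)) ?_ ?_ ?_ ?_ v (Finset.mem_univ v) ?_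
    · intro i _
      positivity
    · rw [Finset.sum_const, Finset.card_univ, Fintype.card_fin, nsmul_eq_mul]
      field_simp
    · intro i _
      exact regular_mem _ (degree_lt G i) (h i)
    · rw [conjSeq_eq]
      apply Finset.sum_congr rfl
      intro i _
      rw [smul_smul]
      have : 1 / (n : ℝ) * n = 1 := by field_simp
      rw [this, one_smul]
    · positivity
  refine ⟨G.degree ⟨0, hn⟩, fun v => ?_⟩
  have h1 := key v
  rw [← key ⟨0, hn⟩] at h1
  have h2 := smul_right_injective (Fin n → ℝ) hn'.ne' h1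
  exact stp_inj (degree_lt G v).le (degree_lt G _).le h2

open Classical in
lemma special_of_extreme {n : ℕ} (hn : 1 ≤ n) (G : SimpleGraph (Fin n))
    (hG : conjSeq G ∈ (hullC n).extremePoints ℝ) : Special G := by
  rcases Nat.even_or_odd n with hne | hno
  · exact Or.inl (regular_of_extreme hn G hG (fun v => Or.inl hne))
  set O := Finset.univ.filter (fun v => Odd (G.degree v)) with hO
  set E := Finset.univ.filter (fun v => ¬ Odd (G.degree v)) with hE
  have hOE : O.card + E.card = n := by
    rw [hO, hE, Finset.card_filter_add_card_filter_not]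
    simp
  have hO1 : O.card + 1 ≤ n := odd_card_le G hno
  rcases Finset.eq_empty_or_nonempty O with hOe | hOne
  · refine Or.inl (regular_of_extreme hn G hG (fun v => Or.inr ?_))
    by_contra hv
    have : v ∈ O := by
      rw [hO, mem_filter]
      exact ⟨mem_univ _, Nat.not_even_iff_odd.1 hv⟩
    rw [hOe] at this
    simp at this
  · right
    refine ⟨hno, ?_⟩
    have hopos : 0 < O.card := Finset.card_pos.2 hOne
    have hepos : 0 < E.card := by omega
    have hn2 : 2 ≤ n := by omega
    have hn' : (0 : ℝ) < (n : ℝ) - 1 := by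
      have : (2 : ℝ) ≤ n := by exact_mod_cast hn2
      linarith
    have hnpos : (0 : ℝ) < n := by linarith
    have hO' : (O.card : ℝ) ≤ (n : ℝ) - 1 := by
      have : ((O.card + 1 : ℕ) : ℝ) ≤ n := by exact_mod_cast hO1
      push_cast at this
      linarith
    have hOE' : (O.card : ℝ) + E.card = n := by exact_mod_cast hOE
    have hE' : (1 : ℝ) ≤ E.card := by exact_mod_cast hepos
    -- the representation as a convex combination
    let w1 : ℝ := 1 / (((n : ℝ) - 1) * E.card)
    let w2 : ℝ := (1 / (n : ℝ)) * (1 - O.card / (((n : ℝ) - 1) * E.card))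
    have hw1 : 0 < w1 := by
      have : 0 < ((n : ℝ) - 1) * E.card := by positivity
      positivity
    have hw2 : 0 ≤ w2 := by
      apply mul_nonneg (by positivity)
      rw [sub_nonneg, div_le_one (by positivity)]
      nlinarith
    obtain ⟨w0, hw0⟩ := Finset.card_pos.1 hepos
    have key : ∀ v ∈ O, (((n : ℝ) - 1) • stp (G.degree v) + stp (G.degree w0) : Fin n → ℝ)
        = conjSeq G := by
      intro v hv
      refine extreme_weight (convex_convexHull ℝ _) hG ((O ×ˢ E).disjSum E)
        (Sum.elim (fun _ => w1) (fun _ => w2))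
        (Sum.elim (fun p => (((n : ℝ) - 1) • stp (G.degree p.1) + stp (G.degree p.2)
            : Fin n → ℝ))
          (fun w => ((n : ℝ) • stp (G.degree w) : Fin n → ℝ))) ?_ ?_ ?_ ?_
        (Sum.inl (v, w0)) ?_ ?_
      · rintro (p | p) _
        · exact hw1.le
        · exact hw2
      · rw [Finset.sum_disjSum]
        simp only [Sum.elim_inl, Sum.elim_inr, Finset.sum_const, Finset.card_product,
          nsmul_eq_mul, w1, w2]
        push_cast
        field_simp
        rw [← hOE']
        ring
      · rintro (p | p) hp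
        · have hp' : p.1 ∈ O ∧ p.2 ∈ E := by simpa using hp
          have h1 : Odd (G.degree p.1) := by
            have := hp'.1
            rw [hO, mem_filter] at this
            exact this.2
          have h2 : Even (G.degree p.2) := by
            have := hp'.2
            rw [hE, mem_filter] at this
            exact Nat.not_odd_iff_even.1 this.2
          exact mix_mem _ _ hno h1 (degree_lt G _) h2 (degree_lt G _)
        · have hp' : p ∈ E := by simpa using hp
          have h2 : Even (G.degree p) := by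
            rw [hE, mem_filter] at hp'
            exact Nat.not_odd_iff_even.1 hp'.2
          exact regular_mem _ (degree_lt G _) (Or.inr h2)
      · rw [Finset.sum_disjSum]
        simp only [Sum.elim_inl, Sum.elim_inr]
        rw [Finset.sum_product]
        have e1 : ∀ x ∈ O, ∑ y ∈ E, w1 • (((n : ℝ) - 1) • stp (G.degree x) +
            stp (G.degree y) : Fin n → ℝ) =
            stp (G.degree x) + w1 • ∑ y ∈ E, (stp (G.degree y) : Fin n → ℝ) := by
          intro x _
          rw [← Finset.smul_sum, Finset.sum_add_distrib, smul_add, Finset.sum_const]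
          congr 1
          rw [← Nat.cast_smul_eq_nsmul ℝ, smul_smul, smul_smul]
          have : w1 * E.card * ((n : ℝ) - 1) = 1 := by
            simp only [w1]
            field_simp
          rw [this, one_smul]
        rw [Finset.sum_congr rfl e1, Finset.sum_add_distrib, Finset.sum_const]
        have e2 : ∑ w ∈ E, w2 • (n : ℝ) • (stp (G.degree w) : Fin n → ℝ) =
            (w2 * n) • ∑ w ∈ E, (stp (G.degree w) : Fin n → ℝ) := by
          rw [Finset.smul_sum]
          apply Finset.sum_congr rfl
          intro w _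
          rw [smul_smul]
        rw [e2, ← Nat.cast_smul_eq_nsmul ℝ, smul_smul, add_assoc, ← add_smul]
        have e3 : (O.card : ℝ) * w1 + w2 * n = 1 := by
          simp only [w1, w2]
          field_simp
          ring
        rw [e3, one_smul, conjSeq_eq, hO, hE, Finset.sum_filter_add_sum_filter_not]
      · simp [hv, hw0]
      · exact hw1
    obtain ⟨v0, hv0⟩ := hOne
    have hv0' : Odd (G.degree v0) := by
      have := hv0
      rw [hO, mem_filter] at this
      exact this.2
    have hw0' : Even (G.degree w0) := by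
      have := hw0
      rw [hE, mem_filter] at this
      exact Nat.not_odd_iff_even.1 this.2
    -- number of odd vertices is n-1
    have hcard : (O.card : ℝ) = (n : ℝ) - 1 := by
      have h1 := congrArg alt (key v0 hv0)
      rw [alt_add, alt_smul, alt_stp _ (degree_lt G _).le, alt_stp _ (degree_lt G _).le,
        alt_conjSeq, if_pos hv0', if_neg (Nat.not_odd_iff_even.2 hw0')] at h1
      rw [hO]
      linarith
    have hE1 : E.card = 1 := by
      have : (E.card : ℝ) = 1 := by linarith
      exact_mod_cast this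
    refine ⟨G.degree v0, hv0', w0, fun v hv => ?_⟩
    have hvO : v ∈ O := by
      by_contra hvO
      have hvE : v ∈ E := by
        rw [hE, mem_filter]
        rw [hO, mem_filter] at hvO
        exact ⟨mem_univ _, fun h => hvO ⟨mem_univ _, h⟩⟩
      have := Finset.card_le_one.1 hE1.le v hvE w0 hw0
      exact hv this
    have h1 := key v hvO
    rw [← key v0 hv0] at h1
    have h2 := add_right_cancel h1
    have h3 := smul_right_injective (Fin n → ℝ) hn'.ne' h2
    exact stp_inj (degree_lt G _).le (degree_lt G _).le h3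

/-- a point of the hull which agrees with a two-step point at the forced coordinates -/
lemma two_step {n : ℕ} (lo hi : ℕ) (hlh : lo < hi) (hhn : hi ≤ n) (c0 a b : ℝ) (ha : 0 < a)
    (hb : 0 < b) (hab : a + b = 1) (y z : Fin n → ℝ) (hy : y ∈ K n) (hz : z ∈ K n)
    (h : a • y + b • z = c0 • stp hi + ((n : ℝ) - c0) • stp lo) :
    y = y ⟨lo, by omega⟩ • stp hi + ((n : ℝ) - y ⟨lo, by omega⟩) • stp lo := by
  obtain ⟨hy1, hy2, hy3, -⟩ := hy
  obtain ⟨hz1, hz2, hz3, -⟩ := hz
  have hk : ∀ k, a * y k + b * z k =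
      (c0 • stp hi + ((n : ℝ) - c0) • stp lo : Fin n → ℝ) k := by
    intro k
    rw [← h]
    simp
  funext k
  simp only [Pi.add_apply, Pi.smul_apply, smul_eq_mul, stp] at hk ⊢
  rcases Nat.lt_or_ge (k : ℕ) lo with h1 | h1
  · have h2 : (k : ℕ) < hi := by omega
    have h3 := hk k
    rw [if_pos h1, if_pos h2] at h3 ⊢
    have h4 := mul_le_mul_of_nonneg_left (hz2 k) hb.le
    have h5 := mul_le_mul_of_nonneg_left (hy2 k) ha.le
    have h6 : a * (n : ℝ) + b * n = n := by rw [← add_mul, hab, one_mul]
    have h7 : a * y k = a * n := by linarith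
    have h8 := mul_left_cancel₀ ha.ne' h7
    rw [h8]
    ring
  · rcases Nat.lt_or_ge (k : ℕ) hi with h2 | h2
    · have h3 := hk k
      have h4 := hk ⟨lo, by omega⟩
      simp only [lt_irrefl, if_false, hlh, if_true] at h4
      have h1' : ¬ ((k : ℕ) < lo) := by omega
      rw [if_pos h2, if_neg h1'] at h3
      rw [if_pos h2, if_neg h1']
      have h5 := hy3 ⟨lo, by omega⟩ k h1
      have h6 := hz3 ⟨lo, by omega⟩ k h1
      have h7 := mul_le_mul_of_nonneg_left h6 hb.le
      have h8 := mul_le_mul_of_nonneg_left h5 ha.le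
      have h9 : a * y k = a * y ⟨lo, by omega⟩ := by linarith
      have h10 := mul_left_cancel₀ ha.ne' h9
      rw [h10]
      ring
    · have h3 := hk k
      have h1' : ¬ ((k : ℕ) < lo) := by omega
      have h2' : ¬ ((k : ℕ) < hi) := by omega
      rw [if_neg h1', if_neg h2'] at h3 ⊢
      have h4 := mul_nonneg hb.le (hz1 k)
      have h5 := mul_nonneg ha.le (hy1 k)
      have h6 : a * y k = 0 := by linarith
      rcases mul_eq_zero.1 h6 with h7 | h7
      · exact absurd h7 ha.ne'
      · rw [h7]
        ring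

open Classical in
lemma extreme_of_regular {n : ℕ} (G : SimpleGraph (Fin n)) (i : ℕ)
    (hi : ∀ v, G.degree v = i) : conjSeq G ∈ (hullC n).extremePoints ℝ := by
  rw [mem_extremePoints_iff_left]
  refine ⟨mem_hull G, ?_⟩
  rintro y hy z hz ⟨a, b, ha, hb, hab, hx⟩
  have hyK := hull_subset_K n hy
  have hzK := hull_subset_K n hz
  rw [conjSeq_regular G i (fun v => hi v)] at hx ⊢
  obtain ⟨hy1, hy2, hy3, -⟩ := hyK
  obtain ⟨hz1, hz2, hz3, -⟩ := hzK
  funext k
  have hk : a * y k + b * z k = ((n : ℝ) • stp i : Fin n → ℝ) k := by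
    rw [← hx]
    simp
  simp only [Pi.smul_apply, smul_eq_mul, stp] at hk ⊢
  rcases Nat.lt_or_ge (k : ℕ) i with h1 | h1
  · rw [if_pos h1] at hk ⊢
    have h4 := mul_le_mul_of_nonneg_left (hz2 k) hb.le
    have h5 := mul_le_mul_of_nonneg_left (hy2 k) ha.le
    have h6 : a * (n : ℝ) + b * n = n := by rw [← add_mul, hab, one_mul]
    have h7 : a * y k = a * n := by linarith
    rw [mul_left_cancel₀ ha.ne' h7]
    ring
  · rw [if_neg (by omega)] at hk ⊢
    have h4 := mul_nonneg hb.le (hz1 k)
    have h5 := mul_nonneg ha.le (hy1 k)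
    have h6 : a * y k = 0 := by linarith
    rcases mul_eq_zero.1 h6 with h7 | h7
    · exact absurd h7 ha.ne'
    · rw [h7]
      ring

open Classical in
lemma exceptional_even {n : ℕ} (hno : Odd n) (G : SimpleGraph (Fin n)) (i : ℕ) (hio : Odd i)
    (u : Fin n) (hu : ∀ v, v ≠ u → G.degree v = i) : Even (G.degree u) := by
  by_contra hodd
  rw [Nat.not_even_iff_odd] at hodd
  have h1 : ∀ v, Odd (G.degree v) := by
    intro v
    by_cases hv : v = u
    · rw [hv]; exact hodd
    · rw [hu v hv]; exact hio
  have h2 := odd_card_le G hno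
  rw [Finset.filter_true_of_mem (fun v _ => h1 v)] at h2
  simp at h2

open Classical in
lemma extreme_of_special {n : ℕ} (G : SimpleGraph (Fin n)) (hG : Special G) :
    conjSeq G ∈ (hullC n).extremePoints ℝ := by
  rcases hG with ⟨i, hi⟩ | ⟨hno, i, hio, u, hu⟩
  · exact extreme_of_regular G i hi
  by_cases hex : ∃ v, v ≠ u
  swap
  · push Not at hex
    exact extreme_of_regular G (G.degree u) (fun v => by rw [hex v])
  obtain ⟨v0, hv0⟩ := hex
  have hin : i < n := by
    rw [← hu v0 hv0]
    exact degree_lt G v0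
  have hue := exceptional_even hno G i hio u hu
  rw [mem_extremePoints_iff_left]
  refine ⟨mem_hull G, ?_⟩
  rintro y hy z hz ⟨a, b, ha, hb, hab, hx⟩
  have hyK := hull_subset_K n hy
  have hzK := hull_subset_K n hz
  set j := G.degree u with hj
  have hjn : j < n := degree_lt G u
  rw [conjSeq_mix G i j u hu hj.symm] at hx ⊢
  have haj : alt (stp j : Fin n → ℝ) = 0 := by
    rw [alt_stp _ hjn.le, if_neg (Nat.not_odd_iff_even.2 hue)]
  have hai : alt (stp i : Fin n → ℝ) = 1 := by
    rw [alt_stp _ hin.le, if_pos hio]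
  have hne : i ≠ j := by
    rintro h
    rw [← h] at hue
    exact (Nat.not_odd_iff_even.2 hue) hio
  rcases Nat.lt_or_gt_of_ne hne with hij | hij
  · -- i < j
    have hx' : a • y + b • z = (1 : ℝ) • stp j + ((n : ℝ) - 1) • stp i := by
      rw [hx, one_smul, add_comm]
    have hy' := two_step i j hij hjn.le 1 a b ha hb hab y z hyK hzK hx'
    have hx'' : b • z + a • y = (1 : ℝ) • stp j + ((n : ℝ) - 1) • stp i := by
      rw [add_comm]; exact hx'
    have hz' := two_step i j hij hjn.le 1 b a hb ha (by linarith) z y hzK hyK hx''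
    have hk : a * y ⟨i, by omega⟩ + b * z ⟨i, by omega⟩ = 1 := by
      have := congrFun hx' ⟨i, by omega⟩
      simpa [stp, hij] using this
    have h1 := hyK.2.2.2 hno
    have h2 := hzK.2.2.2 hno
    rw [hy', alt_add, alt_smul, alt_smul, haj, hai] at h1
    rw [hz', alt_add, alt_smul, alt_smul, haj, hai] at h2
    have h3 : 1 ≤ y ⟨i, by omega⟩ := by linarith
    have h4 : 1 ≤ z ⟨i, by omega⟩ := by linarith
    have h5 : y ⟨i, by omega⟩ = 1 := by
      have h6 := mul_le_mul_of_nonneg_left h4 hb.le
      have h7 : a * y ⟨i, by omega⟩ ≤ a * 1 := by linarith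
      have h8 := le_of_mul_le_mul_left h7 ha
      linarith
    rw [hy', h5, one_smul, add_comm]
  · -- j < i
    have hx' : a • y + b • z = ((n : ℝ) - 1) • stp i + ((n : ℝ) - (n - 1)) • stp j := by
      rw [hx]
      have : (n : ℝ) - (n - 1) = 1 := by ring
      rw [this, one_smul]
    have hy' := two_step j i hij hin.le (n - 1) a b ha hb hab y z hyK hzK hx'
    have hx'' : b • z + a • y = ((n : ℝ) - 1) • stp i + ((n : ℝ) - (n - 1)) • stp j := by
      rw [add_comm]; exact hx'
    have hz' := two_step j i hij hin.le (n - 1) b a hb ha (by linarith) z y hzK hyK hx''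
    have hk : a * y ⟨j, by omega⟩ + b * z ⟨j, by omega⟩ = n - 1 := by
      have := congrFun hx' ⟨j, by omega⟩
      simpa [stp, hij] using this
    have h1 := hyK.2.2.2 hno
    have h2 := hzK.2.2.2 hno
    rw [hy', alt_add, alt_smul, alt_smul, haj, hai] at h1
    rw [hz', alt_add, alt_smul, alt_smul, haj, hai] at h2
    have h3 : y ⟨j, by omega⟩ ≤ n - 1 := by linarith
    have h4 : z ⟨j, by omega⟩ ≤ n - 1 := by linarith
    have h5 : y ⟨j, by omega⟩ = n - 1 := by
      have h6 := mul_le_mul_of_nonneg_left h4 hb.le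
      have h9 : a * ((n : ℝ) - 1) + b * (n - 1) = n - 1 := by rw [← add_mul, hab, one_mul]
      have h7 : a * ((n : ℝ) - 1) ≤ a * y ⟨j, by omega⟩ := by linarith
      have h8 := le_of_mul_le_mul_left h7 ha
      linarith
    rw [hy', h5]
    have : (n : ℝ) - (n - 1) = 1 := by ring
    rw [this, one_smul]

lemma stp_smul_eq {n : ℕ} (i : ℕ) :
    ((n : ℝ) • stp i : Fin n → ℝ) = fun k : Fin n => if (k : ℕ) < i then (n : ℝ) else 0 := by
  funext k
  simp [stp]

lemma stp_mix_eq {n : ℕ} (i j : ℕ) :
    (((n : ℝ) - 1) • stp i + stp j : Fin n → ℝ) =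
      fun k : Fin n => (if (k : ℕ) < i then (n : ℝ) - 1 else 0) +
        (if (k : ℕ) < j then 1 else 0) := by
  funext k
  simp [stp]

open Classical in
/-- **The extreme points of `C_n` and the graphs that realise them.**
For `n` even the extreme points of `C_n` are exactly the points `(n, ..., n, 0, ..., 0)` with
`i` entries `n`, for `0 ≤ i ≤ n - 1`.  For `n` odd they are exactly these points with `i` even,
together with the points whose `k`-th entry is `(n - 1) [k ≤ i] + [k ≤ j]`, with `i` odd and
`j` even, `0 ≤ i, j ≤ n - 1`.  A graph `G` on `n` vertices has its conjugate degree sequence at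
an extreme point of `C_n` if and only if `G` is regular, or `n` is odd and all vertices of `G`
but one have the same odd degree. -/
theorem main (n : ℕ) (hn : 1 ≤ n) :
    (Even n → (hullC n).extremePoints ℝ =
      {x | ∃ i < n, x = fun k : Fin n => if (k : ℕ) < i then (n : ℝ) else 0}) ∧
    (Odd n → (hullC n).extremePoints ℝ =
      {x | ∃ i < n, Even i ∧ x = fun k : Fin n => if (k : ℕ) < i then (n : ℝ) else 0} ∪
      {x | ∃ i < n, ∃ j < n, Odd i ∧ Even j ∧
        x = fun k : Fin n => (if (k : ℕ) < i then (n : ℝ) - 1 else 0) +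
          (if (k : ℕ) < j then 1 else 0)}) ∧
    (∀ G : SimpleGraph (Fin n), conjSeq G ∈ (hullC n).extremePoints ℝ ↔
      (∃ i, ∀ v, G.degree v = i) ∨
        (Odd n ∧ ∃ i, Odd i ∧ ∃ u, ∀ v, v ≠ u → G.degree v = i)) := by
  refine ⟨fun hne => ?_, fun hno => ?_, fun G => ⟨fun h => special_of_extreme hn G h,
    fun h => extreme_of_special G h⟩⟩
  · ext x
    constructor
    · intro hx
      obtain ⟨G, rfl⟩ := extremePoints_convexHull_subset hx
      rcases special_of_extreme hn G hx with ⟨i, hi⟩ | ⟨h, -⟩
      · refine ⟨i, ?_, ?_⟩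
        · rw [← hi ⟨0, hn⟩]
          exact degree_lt G _
        · rw [conjSeq_regular G i (fun v => hi v), stp_smul_eq]
      · exact absurd h (Nat.not_odd_iff_even.2 hne)
    · rintro ⟨i, hi, rfl⟩
      obtain ⟨G, hG⟩ := Pool.Agent.Helper19.Conj.realizable_even n i hne hi
      rw [← stp_smul_eq, ← conjSeq_regular G i (fun v => hG v)]
      exact extreme_of_special G (Or.inl ⟨i, hG⟩)
  · ext x
    constructor
    · intro hx
      obtain ⟨G, rfl⟩ := extremePoints_convexHull_subset hx
      rcases special_of_extreme hn G hx with ⟨i, hi⟩ | ⟨-, i, hio, u, hu⟩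
      · left
        refine ⟨i, ?_, ?_, ?_⟩
        · rw [← hi ⟨0, hn⟩]
          exact degree_lt G _
        · by_contra hio
          rw [Nat.not_even_iff_odd] at hio
          have := exceptional_even hno G i hio ⟨0, hn⟩ (fun v _ => hi v)
          rw [hi] at this
          exact (Nat.not_odd_iff_even.2 this) hio
        · rw [conjSeq_regular G i (fun v => hi v), stp_smul_eq]
      · by_cases hex : ∃ v, v ≠ u
        · obtain ⟨v0, hv0⟩ := hex
          right
          refine ⟨i, ?_, G.degree u, degree_lt G u, hio, exceptional_even hno G i hio u hu, ?_⟩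
          · rw [← hu v0 hv0]
            exact degree_lt G v0
          · rw [conjSeq_mix G i _ u hu rfl, stp_mix_eq]
        · push Not at hex
          left
          refine ⟨G.degree u, degree_lt G u, exceptional_even hno G i hio u hu, ?_⟩
          rw [conjSeq_regular G (G.degree u) (fun v => by rw [hex v]), stp_smul_eq]
    · rintro (⟨i, hi, hie, rfl⟩ | ⟨i, hi, j, hj, hio, hje, rfl⟩)
      · obtain ⟨G, hG⟩ := Pool.Agent.Helper19.Conj.realizable_odd n i hno hi hie
        rw [← stp_smul_eq, ← conjSeq_regular G i (fun v => hG v)]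
        exact extreme_of_special G (Or.inl ⟨i, hG⟩)
      · obtain ⟨G, u, h1, h2⟩ := mix_real i j hno hio hi hje hj
        rw [← stp_mix_eq, ← conjSeq_mix G i j u h1 h2]
        exact extreme_of_special G (Or.inr ⟨hno, i, hio, u, h1⟩)

end Pool.Agent.Helper19.ConjHull
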